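import Mathlib

set_option autoImplicit false

open MeasureTheory TopologicalSpace

namespace Pool.Agent.S14935Aux

/-- There is a Borel subset of `2^ω × ω^ω` whose projection to the first coordinate is not Borel. -/
theorem exists_measurable_nonmeasurable_proj :
    ∃ C : Set ((ℕ → Bool) × (ℕ → ℕ)), MeasurableSet C ∧
      ¬ MeasurableSet {x : ℕ → Bool | ∃ y, (x, y) ∈ C} := by
  classical
  -- a countable basis, enumerated
  obtain ⟨U, hU⟩ : ∃ U : ℕ → Set ((ℕ → Bool) × (ℕ → ℕ)),
      IsTopologicalBasis (Set.range U) := by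
    obtain ⟨b, hbc, -, hb⟩ := exists_countable_basis ((ℕ → Bool) × (ℕ → ℕ))
    have hne : b.Nonempty := by
      by_contra h
      rw [Set.not_nonempty_iff_eq_empty] at h
      have := hb.sUnion_eq
      rw [h, Set.sUnion_empty] at this
      exact absurd this.symm (Set.nonempty_iff_univ_nonempty.mp inferInstance |>.ne_empty)
    obtain ⟨U, hU⟩ := hbc.exists_eq_range hne
    exact ⟨U, hU ▸ hb⟩
  let C : Set ((ℕ → Bool) × (ℕ → ℕ)) := {p | ∀ n, p.1 n = true → p ∉ U n}
  have hC : MeasurableSet C := by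
    have : C = ⋂ n, ({p : (ℕ → Bool) × (ℕ → ℕ) | p.1 n = true}ᶜ ∪ (U n)ᶜ) := by
      ext p
      simp only [C, Set.mem_ofPred_eq, Set.mem_iInter, Set.mem_union, Set.mem_compl_iff]
      constructor
      · intro h n
        by_cases hn : p.1 n = true
        · right; exact h n hn
        · left; exact hn
      · intro h n hn
        rcases h n with h | h
        · exact absurd hn h
        · exact h
    rw [this]
    refine MeasurableSet.iInter fun n => MeasurableSet.union ?_ ?_
    · apply MeasurableSet.compl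
      have : Measurable fun p : (ℕ → Bool) × (ℕ → ℕ) => p.1 n :=
        (measurable_pi_apply n).comp measurable_fst
      exact this (measurableSet_singleton true)
    · apply MeasurableSet.compl
      exact (hU.isOpen (Set.mem_range_self n)).measurableSet
  refine ⟨C, hC, fun hD => ?_⟩
  -- the complement is analytic, hence the projection of a closed set
  have : PolishSpace (ℕ → Bool) :=
    { toSecondCountableTopology := inferInstance
      toIsCompletelyMetrizableSpace := inferInstance }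
  have hDc : AnalyticSet {x : ℕ → Bool | ∃ y, (x, y) ∈ C}ᶜ := hD.compl.analyticSet
  obtain ⟨F, hF, hFproj⟩ : ∃ F : Set ((ℕ → Bool) × (ℕ → ℕ)), IsClosed F ∧
      ∀ x, x ∈ {x : ℕ → Bool | ∃ y, (x, y) ∈ C}ᶜ ↔ ∃ y, (x, y) ∈ F := by
    rw [AnalyticSet] at hDc
    rcases hDc with h | ⟨f, hf, hfr⟩
    · refine ⟨∅, isClosed_empty, fun x => ?_⟩
      rw [h]
      simp
    · refine ⟨{p | p.1 = f p.2}, isClosed_eq continuous_fst (hf.comp continuous_snd), fun x => ?_⟩
      rw [← hfr]
      simp only [Set.mem_range, Set.mem_ofPred_eq]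
      exact ⟨fun ⟨y, hy⟩ => ⟨y, hy.symm⟩, fun ⟨y, hy⟩ => ⟨y, hy.symm⟩⟩
  let c : ℕ → Bool := fun n => decide (U n ⊆ Fᶜ)
  have hc : ∀ y, (c, y) ∈ C ↔ (c, y) ∈ F := by
    intro y
    constructor
    · intro h
      by_contra hn
      obtain ⟨V, ⟨n, rfl⟩, hV, hVF⟩ := hU.exists_subset_of_mem_open (Set.mem_compl hn)
        hF.isOpen_compl
      exact h n (by simp [c, hVF]) hV
    · intro h n hn hmem
      have : U n ⊆ Fᶜ := by simpa [c] using hn
      exact this hmem h
  have h1 := hFproj c
  simp only [Set.mem_compl_iff, Set.mem_ofPred_eq] at h1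
  have h2 : (∃ y, (c, y) ∈ C) ↔ ∃ y, (c, y) ∈ F :=
    ⟨fun ⟨y, hy⟩ => ⟨y, (hc y).1 hy⟩, fun ⟨y, hy⟩ => ⟨y, (hc y).2 hy⟩⟩
  rw [h2] at h1
  tauto

end Pool.Agent.S14935Aux
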