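import Mathlib

set_option autoImplicit false

open LaurentPolynomial

noncomputable section

namespace Pool.Agent.S14935Aux

/-- P. Hall's group: the matrices `[[1, f, h], [0, T^n, g], [0, 0, 1]]` over `ℤ[T;T⁻¹]`. -/
@[ext] structure HallG where
  f : LaurentPolynomial ℤ
  g : LaurentPolynomial ℤ
  h : LaurentPolynomial ℤ
  n : ℤ

namespace HallG

instance : Mul HallG :=
  ⟨fun x y => ⟨y.f + x.f * T y.n, x.g + T x.n * y.g, x.h + y.h + x.f * y.g, x.n + y.n⟩⟩
instance : One HallG := ⟨⟨0, 0, 0, 0⟩⟩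
instance : Inv HallG :=
  ⟨fun x => ⟨-x.f * T (-x.n), -(T (-x.n) * x.g), -x.h + x.f * T (-x.n) * x.g, -x.n⟩⟩

@[simp] lemma mul_f (x y : HallG) : (x * y).f = y.f + x.f * T y.n := rfl
@[simp] lemma mul_g (x y : HallG) : (x * y).g = x.g + T x.n * y.g := rfl
@[simp] lemma mul_h (x y : HallG) : (x * y).h = x.h + y.h + x.f * y.g := rfl
@[simp] lemma mul_n (x y : HallG) : (x * y).n = x.n + y.n := rfl
@[simp] lemma one_f : (1 : HallG).f = 0 := rfl
@[simp] lemma one_g : (1 : HallG).g = 0 := rfl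
@[simp] lemma one_h : (1 : HallG).h = 0 := rfl
@[simp] lemma one_n : (1 : HallG).n = 0 := rfl
@[simp] lemma inv_f (x : HallG) : (x⁻¹).f = -x.f * T (-x.n) := rfl
@[simp] lemma inv_g (x : HallG) : (x⁻¹).g = -(T (-x.n) * x.g) := rfl
@[simp] lemma inv_h (x : HallG) : (x⁻¹).h = -x.h + x.f * T (-x.n) * x.g := rfl
@[simp] lemma inv_n (x : HallG) : (x⁻¹).n = -x.n := rfl

instance : Group HallG := Group.ofLeftAxioms
  (by
    intro x y z
    ext1
    · simp only [mul_f, mul_n, T_add]; ring
    · simp only [mul_g, mul_n, T_add]; ring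
    · simp only [mul_h, mul_f, mul_g]; ring
    · simp only [mul_n]; ring)
  (by intro x; ext1 <;> simp)
  (by
    intro x
    ext1
    · simp only [mul_f, inv_f, one_f]
      rw [mul_assoc, ← T_add]; simp
    · simp only [mul_g, inv_g, inv_n, one_g]; ring
    · simp only [mul_h, inv_h, inv_f, one_h]; ring
    · simp)

end HallG

/-- The quotient of `HallG` by its centre: `ℤ[T;T⁻¹]² ⋊ ℤ`. -/
@[ext] structure HallQ where
  f : LaurentPolynomial ℤ
  g : LaurentPolynomial ℤ
  n : ℤ

namespace HallQ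

instance : Mul HallQ :=
  ⟨fun x y => ⟨y.f + x.f * T y.n, x.g + T x.n * y.g, x.n + y.n⟩⟩
instance : One HallQ := ⟨⟨0, 0, 0⟩⟩
instance : Inv HallQ :=
  ⟨fun x => ⟨-x.f * T (-x.n), -(T (-x.n) * x.g), -x.n⟩⟩

@[simp] lemma mul_f (x y : HallQ) : (x * y).f = y.f + x.f * T y.n := rfl
@[simp] lemma mul_g (x y : HallQ) : (x * y).g = x.g + T x.n * y.g := rfl
@[simp] lemma mul_n (x y : HallQ) : (x * y).n = x.n + y.n := rfl
@[simp] lemma one_f : (1 : HallQ).f = 0 := rfl
@[simp] lemma one_g : (1 : HallQ).g = 0 := rfl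
@[simp] lemma one_n : (1 : HallQ).n = 0 := rfl
@[simp] lemma inv_f (x : HallQ) : (x⁻¹).f = -x.f * T (-x.n) := rfl
@[simp] lemma inv_g (x : HallQ) : (x⁻¹).g = -(T (-x.n) * x.g) := rfl
@[simp] lemma inv_n (x : HallQ) : (x⁻¹).n = -x.n := rfl

instance : Group HallQ := Group.ofLeftAxioms
  (by
    intro x y z
    ext1
    · simp only [mul_f, mul_n, T_add]; ring
    · simp only [mul_g, mul_n, T_add]; ring
    · simp only [mul_n]; ring)
  (by intro x; ext1 <;> simp)
  (by
    intro x
    ext1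
    · simp only [mul_f, inv_f, one_f]
      rw [mul_assoc, ← T_add]; simp
    · simp only [mul_g, inv_g, inv_n, one_g]; ring
    · simp)

lemma T_sub_one_ne_zero {n : ℤ} (hn : n ≠ 0) : (T n - 1 : LaurentPolynomial ℤ) ≠ 0 := by
  intro h
  rw [sub_eq_zero, ← T_zero] at h
  have := congrArg (fun p : LaurentPolynomial ℤ => p.coeff n) h
  simp only [T_apply, if_true] at this
  rw [if_neg hn.symm] at this
  exact one_ne_zero this

/-- `HallQ` has trivial centre. -/
lemma eq_one_of_central (x : HallQ) (hx : ∀ z, x * z = z * x) : x = 1 := by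
  have h1 := hx ⟨0, 0, 1⟩
  have h2 := hx ⟨1, 0, 0⟩
  have hf := congrArg HallQ.f h1
  have hg := congrArg HallQ.g h1
  have hn := congrArg HallQ.f h2
  simp only [mul_f, mul_g, mul_zero, add_zero, zero_mul, zero_add, T_zero, mul_one,
    one_mul] at hf hg hn
  ext1
  · -- x.f * T 1 = x.f
    have : x.f * (T 1 - 1) = 0 := by rw [mul_sub, hf]; ring
    rcases mul_eq_zero.1 this with h | h
    · exact h
    · exact absurd h (T_sub_one_ne_zero one_ne_zero)
  · have : (T 1 - 1) * x.g = 0 := by rw [sub_mul, ← hg]; ring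
    rcases mul_eq_zero.1 this with h | h
    · exact absurd h (T_sub_one_ne_zero one_ne_zero)
    · exact h
  · by_contra hne
    have : (T x.n - 1 : LaurentPolynomial ℤ) = 0 := by
      have : (1 : LaurentPolynomial ℤ) + x.f = x.f + T x.n := hn
      linear_combination -this
    exact T_sub_one_ne_zero hne this

instance : IsNoetherianRing (LaurentPolynomial ℤ) :=
  IsLocalization.isNoetherianRing (Submonoid.powers (Polynomial.X : Polynomial ℤ)) _ inferInstance

/-- The base part of a subgroup, as an additive subgroup. -/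
def baseAdd (N : Subgroup HallQ) : AddSubgroup (LaurentPolynomial ℤ × LaurentPolynomial ℤ) where
  carrier := {v | (⟨v.1, invert v.2, 0⟩ : HallQ) ∈ N}
  zero_mem' := by
    have : (⟨0, invert 0, 0⟩ : HallQ) = 1 := by ext1 <;> simp
    show (⟨0, invert 0, 0⟩ : HallQ) ∈ N
    rw [this]; exact N.one_mem
  add_mem' := by
    intro a b ha hb
    have : (⟨a.1 + b.1, invert (a.2 + b.2), 0⟩ : HallQ) =
        ⟨a.1, invert a.2, 0⟩ * ⟨b.1, invert b.2, 0⟩ := by
      ext1
      · simp [add_comm]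
      · simp
      · simp
    show (⟨(a + b).1, invert (a + b).2, 0⟩ : HallQ) ∈ N
    rw [Prod.fst_add, Prod.snd_add, this]
    exact N.mul_mem ha hb
  neg_mem' := by
    intro a ha
    have : (⟨-a.1, invert (-a.2), 0⟩ : HallQ) = (⟨a.1, invert a.2, 0⟩ : HallQ)⁻¹ := by
      ext1 <;> simp
    show (⟨(-a).1, invert (-a).2, 0⟩ : HallQ) ∈ N
    rw [Prod.fst_neg, Prod.snd_neg, this]
    exact N.inv_mem ha

lemma mem_baseAdd {N : Subgroup HallQ} {v : LaurentPolynomial ℤ × LaurentPolynomial ℤ} :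
    v ∈ baseAdd N ↔ (⟨v.1, invert v.2, 0⟩ : HallQ) ∈ N := Iff.rfl

lemma T_smul_mem {N : Subgroup HallQ} (hN : N.Normal) (n : ℤ)
    {v : LaurentPolynomial ℤ × LaurentPolynomial ℤ} (hv : v ∈ baseAdd N) :
    (T n : LaurentPolynomial ℤ) • v ∈ baseAdd N := by
  rw [mem_baseAdd] at hv ⊢
  have : (⟨((T n : LaurentPolynomial ℤ) • v).1, invert ((T n : LaurentPolynomial ℤ) • v).2, 0⟩ :
      HallQ) = ⟨0, 0, -n⟩ * ⟨v.1, invert v.2, 0⟩ * (⟨0, 0, -n⟩ : HallQ)⁻¹ := by
    ext1
    · simp [Prod.smul_fst, mul_comm]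
    · simp [Prod.smul_snd]
    · simp
  rw [this]
  exact hN.conj_mem _ hv _

/-- The base part of a normal subgroup, as a submodule. -/
def baseSub (N : Subgroup HallQ) (hN : N.Normal) :
    Submodule (LaurentPolynomial ℤ) (LaurentPolynomial ℤ × LaurentPolynomial ℤ) :=
  { baseAdd N with
    smul_mem' := by
      intro r v hv
      change r • v ∈ baseAdd N
      change v ∈ baseAdd N at hv
      induction r using LaurentPolynomial.induction_on' with
      | add p q hp hq => rw [add_smul]; exact (baseAdd N).add_mem hp hq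
      | C_mul_T n a =>
        have h1 := T_smul_mem hN n hv
        have h2 : (C a * T n : LaurentPolynomial ℤ) • v = a • ((T n : LaurentPolynomial ℤ) • v) := by
          rw [← smul_eq_C_mul, smul_assoc]
        rw [h2]
        exact (baseAdd N).zsmul_mem h1 a }

lemma mem_baseSub {N : Subgroup HallQ} {hN : N.Normal}
    {v : LaurentPolynomial ℤ × LaurentPolynomial ℤ} :
    v ∈ baseSub N hN ↔ (⟨v.1, invert v.2, 0⟩ : HallQ) ∈ N := Iff.rfl

lemma mk_invert {x : HallQ} (hx : x.n = 0) : (⟨x.f, invert (invert x.g), 0⟩ : HallQ) = x := by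
  ext1
  · rfl
  · exact involutive_invert x.g
  · exact hx.symm

/-- `HallQ` is Hopfian. -/
theorem hopfian (ψ : HallQ →* HallQ) (hψ : Function.Surjective ψ) (x : HallQ) (hx : ψ x = 1) :
    x = 1 := by
  -- kernels of the iterates
  let ψ' : Monoid.End HallQ := ψ
  let N : ℕ → Subgroup HallQ := fun k => MonoidHom.ker (ψ' ^ k : Monoid.End HallQ)
  have memN : ∀ k y, y ∈ N k ↔ ψ^[k] y = 1 := by
    intro k y
    have : (ψ' ^ k : Monoid.End HallQ) y = ψ^[k] y := by
      rw [Monoid.End.coe_pow]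
      rfl
    rw [← this]
    exact MonoidHom.mem_ker
  have hNn : ∀ k, (N k).Normal := fun k => MonoidHom.normal_ker _
  have mono : Monotone fun k => baseSub (N k) (hNn k) := by
    apply monotone_nat_of_le_succ
    intro k v hv
    rw [mem_baseSub, memN] at hv ⊢
    rw [Function.iterate_succ_apply', hv, map_one]
  obtain ⟨k, hk⟩ := monotone_stabilizes_iff_noetherian.2
    (inferInstance : IsNoetherian (LaurentPolynomial ℤ)
      (LaurentPolynomial ℤ × LaurentPolynomial ℤ)) ⟨_, mono⟩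
  have hk1 : baseSub (N k) (hNn k) = baseSub (N (k + 1)) (hNn (k + 1)) := hk (k + 1) (Nat.le_succ k)
  have hsurj : Function.Surjective ψ^[k] := hψ.iterate k
  obtain ⟨y, hy⟩ := hsurj x
  apply eq_one_of_central
  intro z'
  obtain ⟨z, rfl⟩ := hsurj z'
  -- the commutator of `y` and `z`
  have hc : y * z * y⁻¹ * z⁻¹ ∈ N (k + 1) := by
    rw [memN, Function.iterate_succ_apply', iterate_map_mul, iterate_map_mul, iterate_map_mul,
      iterate_map_inv, iterate_map_inv, hy]
    simp [hx]
  have hcn : (y * z * y⁻¹ * z⁻¹).n = 0 := by simp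
  have hc' : ((y * z * y⁻¹ * z⁻¹).f, invert (y * z * y⁻¹ * z⁻¹).g) ∈ baseSub (N (k + 1)) (hNn _) := by
    rw [mem_baseSub]
    simp only []
    rw [mk_invert hcn]
    exact hc
  rw [← hk1, mem_baseSub, memN] at hc'
  simp only [] at hc'
  rw [mk_invert hcn] at hc'
  have h3 : ψ^[k] (y * z * y⁻¹ * z⁻¹) = 1 := hc'
  rw [iterate_map_mul, iterate_map_mul, iterate_map_mul,
      iterate_map_inv, iterate_map_inv, hy] at h3
  have h4 : x * ψ^[k] z * x⁻¹ = ψ^[k] z := by
    rw [mul_inv_eq_one] at h3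
    exact h3
  rw [mul_inv_eq_iff_eq_mul] at h4
  exact h4

end HallQ

namespace HallG

/-- The projection onto the quotient by the centre. -/
def toQ : HallG →* HallQ where
  toFun x := ⟨x.f, x.g, x.n⟩
  map_one' := rfl
  map_mul' _ _ := rfl

@[simp] lemma toQ_f (x : HallG) : (toQ x).f = x.f := rfl
@[simp] lemma toQ_g (x : HallG) : (toQ x).g = x.g := rfl
@[simp] lemma toQ_n (x : HallG) : (toQ x).n = x.n := rfl

lemma toQ_surjective : Function.Surjective toQ := fun x => ⟨⟨x.f, x.g, 0, x.n⟩, rfl⟩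

/-- The central elements. -/
def z (s : LaurentPolynomial ℤ) : HallG := ⟨0, 0, s, 0⟩

@[simp] lemma z_f (s : LaurentPolynomial ℤ) : (z s).f = 0 := rfl
@[simp] lemma z_g (s : LaurentPolynomial ℤ) : (z s).g = 0 := rfl
@[simp] lemma z_h (s : LaurentPolynomial ℤ) : (z s).h = s := rfl
@[simp] lemma z_n (s : LaurentPolynomial ℤ) : (z s).n = 0 := rfl

lemma z_zero : z 0 = 1 := rfl

lemma z_add (s t : LaurentPolynomial ℤ) : z (s + t) = z s * z t := by
  ext1 <;> simp

lemma z_comm (s : LaurentPolynomial ℤ) (x : HallG) : z s * x = x * z s := by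
  ext1 <;> simp [add_comm]

lemma toQ_z (s : LaurentPolynomial ℤ) : toQ (z s) = 1 := rfl

lemma toQ_eq_one {x : HallG} : toQ x = 1 ↔ x = z x.h := by
  constructor
  · intro h
    ext1
    · exact congrArg HallQ.f h
    · exact congrArg HallQ.g h
    · rfl
    · exact congrArg HallQ.n h
  · intro h
    rw [h]; rfl

/-- `z` as a homomorphism. -/
def zHom : Multiplicative (LaurentPolynomial ℤ) →* HallG where
  toFun s := z s.toAdd
  map_one' := rfl
  map_mul' _ _ := z_add _ _

/-- A sequence of distinct primes. -/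
def pr (i : ℕ) : ℕ := Nat.nth Nat.Prime i

lemma pr_prime (i : ℕ) : (pr i).Prime := Nat.prime_nth_prime i

lemma pr_coprime {i j : ℕ} (h : i ≠ j) : Nat.Coprime (pr i) (pr j) :=
  (Nat.coprime_primes (pr_prime i) (pr_prime j)).2 fun e =>
    h (Nat.nth_injective Nat.infinite_setOfPred_prime e)

/-- The subgroups `K_J` of `ℤ[T;T⁻¹]`. -/
def K (J : Set ℕ) : AddSubgroup (LaurentPolynomial ℤ) where
  carrier := {s | ∀ i : ℕ, i ∉ J → (pr i : ℤ) ∣ s.coeff i}
  zero_mem' := by intro i _; simp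
  add_mem' := by
    intro a b ha hb i hi
    rw [AddMonoidAlgebra.coeff_add, Finsupp.add_apply]
    exact dvd_add (ha i hi) (hb i hi)
  neg_mem' := by
    intro a ha i hi
    rw [AddMonoidAlgebra.coeff_neg, Finsupp.neg_apply]
    exact (dvd_neg).2 (ha i hi)

lemma mem_K {J : Set ℕ} {s : LaurentPolynomial ℤ} :
    s ∈ K J ↔ ∀ i : ℕ, i ∉ J → (pr i : ℤ) ∣ s.coeff i := Iff.rfl

/-- The central subgroup `V_J` of `HallG`. -/
def V (J : Set ℕ) : Subgroup HallG := (AddSubgroup.toSubgroup (K J)).map zHom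

lemma mem_V {J : Set ℕ} {x : HallG} : x ∈ V J ↔ ∃ s ∈ K J, z s = x := Iff.rfl

instance (J : Set ℕ) : (V J).Normal := by
  constructor
  rintro x ⟨s, hs, rfl⟩ y
  refine ⟨s, hs, ?_⟩
  show z _ = y * z _ * y⁻¹
  rw [← z_comm, mul_assoc, mul_inv_cancel, mul_one]

lemma V_le_ker_toQ (J : Set ℕ) : V J ≤ toQ.ker := by
  rintro x ⟨s, -, rfl⟩
  exact toQ_z _

lemma z_mem_V {J : Set ℕ} {s : LaurentPolynomial ℤ} : z s ∈ V J ↔ s ∈ K J := by
  rw [mem_V]
  constructor
  · rintro ⟨t, ht, h⟩
    have : t = s := congrArg HallG.h h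
    rwa [← this]
  · intro h
    exact ⟨s, h, rfl⟩

/-- Any surjection from `HallG` onto `HallQ` has the centre as its kernel. -/
lemma ker_surj (ψ : HallG →* HallQ) (hψ : Function.Surjective ψ) (x : HallG) :
    ψ x = 1 ↔ toQ x = 1 := by
  have hz : ∀ s, ψ (z s) = 1 := by
    intro s
    apply HallQ.eq_one_of_central
    intro y
    obtain ⟨x, rfl⟩ := hψ y
    rw [← map_mul, ← map_mul, z_comm]
  have hker : toQ.ker ≤ ψ.ker := by
    intro x hx
    rw [MonoidHom.mem_ker] at hx ⊢
    rw [toQ_eq_one.1 hx]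
    exact hz _
  let φ : HallQ →* HallQ := toQ.liftOfSurjective toQ_surjective ⟨ψ, hker⟩
  have hφ : ∀ x, φ (toQ x) = ψ x := fun x =>
    MonoidHom.liftOfRightInverse_comp_apply _ _ _ _ _
  have hφs : Function.Surjective φ := by
    intro y
    obtain ⟨x, rfl⟩ := hψ y
    exact ⟨toQ x, hφ x⟩
  constructor
  · intro h
    apply HallQ.hopfian φ hφs
    rw [hφ, h]
  · intro h
    rw [← hφ, h, map_one]

/-- Arithmetic lemma: multiplying by the other primes in the support. -/
lemma exists_mul (s : LaurentPolynomial ℤ) (i : ℕ) : ∃ m : ℕ, Nat.Coprime m (pr i) ∧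
    ∀ j : ℕ, j ≠ i → (pr j : ℤ) ∣ (m : ℤ) * s.coeff j := by
  classical
  let F : Finset ℕ := s.coeff.support.image Int.toNat
  refine ⟨∏ j ∈ F.erase i, pr j, ?_, ?_⟩
  · apply Nat.Coprime.prod_left
    intro j hj
    exact pr_coprime (Finset.ne_of_mem_erase hj)
  · intro j hj
    by_cases h0 : s.coeff (j : ℤ) = 0
    · rw [h0]; simp
    · have hjF : j ∈ F.erase i := by
        rw [Finset.mem_erase]
        refine ⟨hj, ?_⟩
        rw [Finset.mem_image]
        exact ⟨(j : ℤ), Finsupp.mem_support_iff.2 h0, Int.toNat_natCast j⟩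
      apply Dvd.dvd.mul_right
      exact_mod_cast Finset.dvd_prod_of_mem pr hjF

lemma z_mul_nat (m : ℕ) (s : LaurentPolynomial ℤ) : z ((m : LaurentPolynomial ℤ) * s) = z s ^ m := by
  induction m with
  | zero => simp [z_zero]
  | succ k ih => rw [pow_succ, ← ih, Nat.cast_succ, add_mul, one_mul, z_add]

lemma coeff_nat_mul (m : ℕ) (s : LaurentPolynomial ℤ) (i : ℤ) :
    ((m : LaurentPolynomial ℤ) * s).coeff i = (m : ℤ) * s.coeff i := by
  rw [← nsmul_eq_mul, AddMonoidAlgebra.coeff_smul, Finsupp.smul_apply, nsmul_eq_mul]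

lemma pow_coprime_eq_one {G : Type*} [Group G] {x : G} {a b : ℕ} (hab : Nat.Coprime a b)
    (ha : x ^ a = 1) (hb : x ^ b = 1) : x = 1 := by
  have h1 := orderOf_dvd_of_pow_eq_one ha
  have h2 := orderOf_dvd_of_pow_eq_one hb
  have h3 := Nat.dvd_gcd h1 h2
  rw [hab] at h3
  exact orderOf_eq_one_iff.1 (Nat.dvd_one.1 h3)

/-- If a homomorphism kills `V_I` and `i ∈ I` then `z s` cannot be mapped to an element of
order `p_i`. -/
lemma no_order {H : Type*} [Group H] (ρ : HallG →* H) (I : Set ℕ) (hI : V I ≤ ρ.ker) (i : ℕ)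
    (hi : i ∈ I) (s : LaurentPolynomial ℤ) (hs : ρ (z s) ^ pr i = 1) : ρ (z s) = 1 := by
  obtain ⟨m, hm, hmd⟩ := exists_mul s i
  refine pow_coprime_eq_one hm ?_ hs
  rw [← map_pow, ← z_mul_nat, ← MonoidHom.mem_ker]
  apply hI
  rw [z_mem_V, mem_K]
  intro j hj
  rw [coeff_nat_mul]
  apply hmd
  rintro rfl
  exact hj hi

lemma rigid_subset (I J : Set ℕ) (ρ : HallG →* HallG ⧸ V J) (hρ : Function.Surjective ρ)
    (hI : V I ≤ ρ.ker) : I ⊆ J ∧ ∀ x, ρ x = 1 → toQ x = 1 := by
  let q : HallG ⧸ V J →* HallQ := QuotientGroup.lift (V J) toQ (V_le_ker_toQ J)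
  have hq : Function.Surjective q := by
    intro y
    obtain ⟨x, rfl⟩ := toQ_surjective y
    exact ⟨QuotientGroup.mk x, rfl⟩
  have hψ := ker_surj (q.comp ρ) (hq.comp hρ)
  have hker : ∀ x, ρ x = 1 → toQ x = 1 := by
    intro x hx
    rw [← hψ x, MonoidHom.comp_apply, hx, map_one]
  refine ⟨?_, hker⟩
  intro i hiI
  by_contra hiJ
  obtain ⟨x, hx⟩ := hρ (QuotientGroup.mk (z (T i)))
  have h1 : toQ x = 1 := by
    rw [← hψ x, MonoidHom.comp_apply, hx]
    exact toQ_z _
  rw [toQ_eq_one] at h1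
  have h2 : ρ x ^ pr i = 1 := by
    rw [hx, ← QuotientGroup.mk_pow, QuotientGroup.eq_one_iff, ← z_mul_nat, z_mem_V, mem_K]
    intro j hj
    rw [coeff_nat_mul, T_apply]
    by_cases hij : (i : ℤ) = j
    · have : i = j := by exact_mod_cast hij
      subst this
      exact Dvd.intro _ rfl
    · rw [if_neg hij]; simp
  rw [h1] at h2
  have h3 := no_order ρ I hI i hiI x.h h2
  rw [← h1, hx, QuotientGroup.eq_one_iff, z_mem_V, mem_K] at h3
  have h4 := h3 i hiJ
  rw [T_apply, if_pos rfl] at h4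
  have h5 : pr i ∣ 1 := by exact_mod_cast h4
  exact (pr_prime i).one_lt.ne' (Nat.dvd_one.1 h5)

/-- The rigidity theorem for the quotients `HallG ⧸ V J`. -/
theorem rigid (I J : Set ℕ) (ρ : HallG →* HallG ⧸ V J) (hρ : Function.Surjective ρ)
    (hI : V I ≤ ρ.ker) (hne : ρ.ker ≠ V I) : I ⊆ J ∧ I ≠ J := by
  obtain ⟨hsub, hker⟩ := rigid_subset I J ρ hρ hI
  refine ⟨hsub, ?_⟩
  rintro rfl
  -- an element of the kernel outside of `V I`
  obtain ⟨x, hx, hxI⟩ : ∃ x, ρ x = 1 ∧ x ∉ V I := by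
    by_contra h
    push Not at h
    exact hne (le_antisymm (fun x hx => h x hx) hI)
  have hxz := toQ_eq_one.1 (hker x hx)
  set s := x.h with hs
  rw [hxz] at hx hxI
  rw [z_mem_V, mem_K] at hxI
  push Not at hxI
  obtain ⟨j, hjI, hj⟩ := hxI
  obtain ⟨m, hm, hmd⟩ := exists_mul s j
  -- `z (T j)` is in the kernel
  have hT : ρ (z (T j)) = 1 := by
    have hp : ρ (z (T j)) ^ pr j = 1 := by
      rw [← map_pow, ← z_mul_nat, ← MonoidHom.mem_ker]
      apply hI
      rw [z_mem_V, mem_K]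
      intro l _
      rw [coeff_nat_mul, T_apply]
      by_cases hij : (j : ℤ) = l
      · have : j = l := by exact_mod_cast hij
        subst this
        exact Dvd.intro _ rfl
      · rw [if_neg hij]; simp
    have hc : ρ (z (T j)) ^ (m * (s.coeff j).natAbs) = 1 := by
      have e1 : ρ (z (C ((m : ℤ) * s.coeff j) * T j)) = 1 := by
        have e2 : (m : LaurentPolynomial ℤ) * s - C ((m : ℤ) * s.coeff j) * T j ∈ K I := by
          rw [mem_K]
          intro l _
          rw [AddMonoidAlgebra.coeff_sub, Finsupp.sub_apply, coeff_nat_mul, ← smul_eq_C_mul,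
            AddMonoidAlgebra.coeff_smul, Finsupp.smul_apply, T_apply]
          by_cases hij : (j : ℤ) = l
          · have : j = l := by exact_mod_cast hij
            subst this
            simp
          · rw [if_neg hij]
            have : l ≠ j := by
              rintro rfl; exact hij rfl
            simpa using hmd l this
        have e3 : z (C ((m : ℤ) * s.coeff j) * T j) *
            z ((m : LaurentPolynomial ℤ) * s - C ((m : ℤ) * s.coeff j) * T j) = z s ^ m := by
          rw [← z_add, ← z_mul_nat]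
          congr 1; ring
        have e4 : ρ (z ((m : LaurentPolynomial ℤ) * s - C ((m : ℤ) * s.coeff j) * T j)) = 1 :=
          hI (z_mem_V.2 e2)
        have e5 := congrArg ρ e3
        rw [map_mul, e4, mul_one, map_pow, hx, one_pow] at e5
        exact e5
      have e6 : ((m * (s.coeff j).natAbs : ℕ) : LaurentPolynomial ℤ) * T j =
          C ((m : ℤ) * s.coeff j) * T j ∨
          ((m * (s.coeff j).natAbs : ℕ) : LaurentPolynomial ℤ) * T j =
          -(C ((m : ℤ) * s.coeff j) * T j) := by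
        rcases Int.natAbs_eq (s.coeff j) with h | h
        · left
          congr 1
          rw [h]
          simp
        · right
          rw [← neg_mul]
          congr 1
          rw [h]
          simp
      rw [← map_pow, ← z_mul_nat]
      rcases e6 with h | h
      · rw [h, e1]
      · rw [h]
        have : z (-(C ((m : ℤ) * s.coeff j) * T j)) = (z (C ((m : ℤ) * s.coeff j) * T j))⁻¹ := by
          rw [eq_inv_iff_mul_eq_one, ← z_add, neg_add_cancel, z_zero]
        rw [this, map_inv, e1, inv_one]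
    refine pow_coprime_eq_one (Nat.Coprime.mul_left hm ?_) hc hp
    rw [Nat.coprime_comm, Nat.Prime.coprime_iff_not_dvd (pr_prime j)]
    intro h
    exact hj (Int.natCast_dvd.2 h)
  -- hence `V (I ∪ {j})` is in the kernel
  have hI' : V (insert j I) ≤ ρ.ker := by
    intro y hy
    obtain ⟨t, ht, rfl⟩ := mem_V.1 hy
    show ρ (z t) = 1
    have e1 : t - C (t.coeff j) * T j ∈ K I := by
      rw [mem_K]
      intro l hl
      rw [AddMonoidAlgebra.coeff_sub, Finsupp.sub_apply, ← smul_eq_C_mul,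
            AddMonoidAlgebra.coeff_smul, Finsupp.smul_apply, T_apply]
      by_cases hij : (j : ℤ) = l
      · have : j = l := by exact_mod_cast hij
        subst this
        simp
      · rw [if_neg hij]
        have : l ≠ j := by
          rintro rfl; exact hij rfl
        have h1 := mem_K.1 ht l (by
          rw [Set.mem_insert_iff]
          push Not
          exact ⟨this, hl⟩)
        simpa using h1
    have e2 : z (t - C (t.coeff j) * T j) * z (C (t.coeff j) * T j) = z t := by
      rw [← z_add, sub_add_cancel]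
    have e3 : ρ (z (C (t.coeff j) * T j)) = 1 := by
      have : zHom (Multiplicative.ofAdd (T j : LaurentPolynomial ℤ)) ^ (t.coeff j) =
          z (C (t.coeff j) * T j) := by
        rw [← map_zpow, ← ofAdd_zsmul, ← smul_eq_C_mul]
        rfl
      rw [← this, map_zpow]
      have : ρ (zHom (Multiplicative.ofAdd (T j : LaurentPolynomial ℤ))) = 1 := hT
      rw [this, one_zpow]
    rw [← e2, map_mul, e3, mul_one]
    exact hI (z_mem_V.2 e1)
  have := (rigid_subset (insert j I) I ρ hρ hI').1 (Set.mem_insert j I)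
  exact hjI this

end HallG

end Pool.Agent.S14935Aux
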