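import Mathlib
import Pool.Agent.Lib.Helper44.MarkedGroups.Hall

set_option autoImplicit false

open LaurentPolynomial

noncomputable section

namespace Pool.Agent.S14935Aux

namespace HallG

/-- The three generators of `HallG`. -/
def gen : Fin 3 → HallG := ![⟨1, 0, 0, 0⟩, ⟨0, 1, 0, 0⟩, ⟨0, 0, 0, 1⟩]

/-- The marking of `HallG`. -/
def mark : FreeGroup (Fin 3) →* HallG := FreeGroup.lift gen

lemma t_zpow (n : ℤ) : (⟨0, 0, 0, 1⟩ : HallG) ^ n = ⟨0, 0, 0, n⟩ := by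
  have h : ∀ k : ℕ, (⟨0, 0, 0, 1⟩ : HallG) ^ k = ⟨0, 0, 0, k⟩ := by
    intro k
    induction k with
    | zero => rw [pow_zero]; rfl
    | succ k ih => rw [pow_succ, ih]; ext1 <;> simp
  obtain ⟨k, rfl | rfl⟩ := n.eq_nat_or_neg
  · rw [zpow_natCast, h]
  · rw [zpow_neg, zpow_natCast, h]; ext1 <;> simp

lemma mark_surjective : Function.Surjective mark := by
  rw [← MonoidHom.range_eq_top, mark, FreeGroup.range_lift_eq_closure]
  set S := Subgroup.closure (Set.range gen)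
  have ha : (⟨1, 0, 0, 0⟩ : HallG) ∈ S := Subgroup.subset_closure ⟨0, rfl⟩
  have hb : (⟨0, 1, 0, 0⟩ : HallG) ∈ S := Subgroup.subset_closure ⟨1, rfl⟩
  have ht : (⟨0, 0, 0, 1⟩ : HallG) ∈ S := Subgroup.subset_closure ⟨2, rfl⟩
  have htn : ∀ n : ℤ, (⟨0, 0, 0, n⟩ : HallG) ∈ S := fun n => by
    rw [← t_zpow]; exact S.zpow_mem ht n
  have hf : ∀ f : LaurentPolynomial ℤ, (⟨f, 0, 0, 0⟩ : HallG) ∈ S := by
    intro f
    induction f using LaurentPolynomial.induction_on' with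
    | add p q hp hq =>
      have : (⟨p + q, 0, 0, 0⟩ : HallG) = ⟨p, 0, 0, 0⟩ * ⟨q, 0, 0, 0⟩ := by
        ext1 <;> simp [add_comm]
      rw [this]; exact S.mul_mem hp hq
    | C_mul_T n a =>
      have h1 : (⟨T n, 0, 0, 0⟩ : HallG) ∈ S := by
        have : (⟨T n, 0, 0, 0⟩ : HallG) = ⟨0, 0, 0, -n⟩ * ⟨1, 0, 0, 0⟩ * ⟨0, 0, 0, n⟩ := by
          ext1 <;> simp
        rw [this]
        exact S.mul_mem (S.mul_mem (htn _) ha) (htn _)
      let φ : Multiplicative (LaurentPolynomial ℤ) →* HallG :=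
        { toFun := fun f => ⟨f.toAdd, 0, 0, 0⟩
          map_one' := rfl
          map_mul' := by intro x y; ext1 <;> simp [add_comm] }
      have h2 : φ (Multiplicative.ofAdd (T n : LaurentPolynomial ℤ)) ^ a =
          ⟨C a * T n, 0, 0, 0⟩ := by
        rw [← map_zpow, ← ofAdd_zsmul, ← smul_eq_C_mul]
        rfl
      rw [← h2]
      exact S.zpow_mem h1 a
  have hg : ∀ f : LaurentPolynomial ℤ, (⟨0, f, 0, 0⟩ : HallG) ∈ S := by
    intro f
    induction f using LaurentPolynomial.induction_on' with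
    | add p q hp hq =>
      have : (⟨0, p + q, 0, 0⟩ : HallG) = ⟨0, p, 0, 0⟩ * ⟨0, q, 0, 0⟩ := by
        ext1 <;> simp
      rw [this]; exact S.mul_mem hp hq
    | C_mul_T n a =>
      have h1 : (⟨0, T n, 0, 0⟩ : HallG) ∈ S := by
        have : (⟨0, T n, 0, 0⟩ : HallG) = ⟨0, 0, 0, n⟩ * ⟨0, 1, 0, 0⟩ * ⟨0, 0, 0, -n⟩ := by
          ext1 <;> simp
        rw [this]
        exact S.mul_mem (S.mul_mem (htn _) hb) (htn _)
      let φ : Multiplicative (LaurentPolynomial ℤ) →* HallG :=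
        { toFun := fun f => ⟨0, f.toAdd, 0, 0⟩
          map_one' := rfl
          map_mul' := by intro x y; ext1 <;> simp }
      have h2 : φ (Multiplicative.ofAdd (T n : LaurentPolynomial ℤ)) ^ a =
          ⟨0, C a * T n, 0, 0⟩ := by
        rw [← map_zpow, ← ofAdd_zsmul, ← smul_eq_C_mul]
        rfl
      rw [← h2]
      exact S.zpow_mem h1 a
  have hz : ∀ s : LaurentPolynomial ℤ, z s ∈ S := by
    intro s
    have : z s = ⟨s, 0, 0, 0⟩ * ⟨0, 1, 0, 0⟩ * (⟨s, 0, 0, 0⟩ : HallG)⁻¹ *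
        (⟨0, 1, 0, 0⟩ : HallG)⁻¹ := by
      ext1 <;> simp
    rw [this]
    exact S.mul_mem (S.mul_mem (S.mul_mem (hf _) hb) (S.inv_mem (hf _))) (S.inv_mem hb)
  rw [eq_top_iff]
  rintro x -
  have : x = ⟨0, x.g, 0, 0⟩ * z x.h * ⟨0, 0, 0, x.n⟩ * ⟨x.f, 0, 0, 0⟩ := by
    ext1 <;> simp
  rw [this]
  exact S.mul_mem (S.mul_mem (S.mul_mem (hg _) (hz _)) (htn _)) (hf _)

end HallG

end Pool.Agent.S14935Aux
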