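import Mathlib
import Pool.Agent.Lib.Helper44.MarkedGroups.Gen
import Pool.Agent.Lib.Helper44.MarkedGroups.DST

set_option autoImplicit false

open LaurentPolynomial MeasureTheory

noncomputable section

namespace Pool.Agent.S14935Aux

open HallG Classical

/-- The normal subgroup of the free group on three generators with quotient `HallG ⧸ V J`. -/
def NJ (J : Set ℕ) : Subgroup (FreeGroup (Fin 3)) := (V J).comap mark

instance (J : Set ℕ) : (NJ J).Normal := Subgroup.Normal.comap inferInstance mark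

lemma T_mem_K {J : Set ℕ} {i : ℕ} : (T i : LaurentPolynomial ℤ) ∈ K J ↔ i ∈ J := by
  rw [mem_K]
  constructor
  · intro h
    by_contra hi
    have h4 := h i hi
    rw [T_apply, if_pos rfl] at h4
    have h5 : pr i ∣ 1 := by exact_mod_cast h4
    exact (pr_prime i).one_lt.ne' (Nat.dvd_one.1 h5)
  · intro hi j hj
    rw [T_apply, if_neg]
    · simp
    · intro h
      have : i = j := by exact_mod_cast h
      exact hj (this ▸ hi)

lemma K_mono {I J : Set ℕ} (h : I ⊆ J) : K I ≤ K J := fun s hs => by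
  rw [mem_K] at hs ⊢
  exact fun i hi => hs i fun hI => hi (h hI)

lemma NJ_le_iff {I J : Set ℕ} : NJ I ≤ NJ J ↔ I ⊆ J := by
  constructor
  · intro h i hi
    obtain ⟨w, hw⟩ := mark_surjective (z (T i))
    have h1 : w ∈ NJ I := by
      show mark w ∈ V I
      rw [hw, z_mem_V, T_mem_K]; exact hi
    have h2 : mark w ∈ V J := h h1
    rwa [hw, z_mem_V, T_mem_K] at h2
  · intro h w hw
    obtain ⟨s, hs, hsw⟩ := mem_V.1 (show mark w ∈ V I from hw)
    exact mem_V.2 ⟨s, K_mono h hs, hsw⟩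

lemma NJ_inj {I J : Set ℕ} (h : NJ I = NJ J) : I = J :=
  Set.Subset.antisymm (NJ_le_iff.1 h.le) (NJ_le_iff.1 h.ge)

/-- Rigidity at the level of the free group. -/
lemma rigid_free (I J : Set ℕ) (M : Subgroup (FreeGroup (Fin 3))) (hM : M.Normal)
    (hIM : NJ I < M) (φ : FreeGroup (Fin 3) →* FreeGroup (Fin 3))
    (hφ : ∀ g, ∃ u, g⁻¹ * φ u ∈ M) (hcomap : M.comap φ = NJ J) : I ⊆ J ∧ I ≠ J := by
  -- `F ⧸ NJ J ≃* F ⧸ M`
  let f1 : FreeGroup (Fin 3) →* FreeGroup (Fin 3) ⧸ M := (QuotientGroup.mk' M).comp φ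
  have hf1 : Function.Surjective f1 := by
    intro y
    obtain ⟨g, rfl⟩ := QuotientGroup.mk_surjective y
    obtain ⟨u, hu⟩ := hφ g
    exact ⟨u, ((QuotientGroup.eq).2 hu).symm⟩
  have hk1 : ∀ w, f1 w = 1 ↔ mark w ∈ V J := by
    intro w
    have : w ∈ M.comap φ ↔ w ∈ NJ J := by rw [hcomap]
    rw [← show w ∈ NJ J ↔ mark w ∈ V J from Iff.rfl, ← this, Subgroup.mem_comap]
    show QuotientGroup.mk (φ w) = 1 ↔ _
    exact QuotientGroup.eq_one_iff _
  -- the homomorphism `HallG → F ⧸ M` with kernel `V J`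
  have hkm : mark.ker ≤ f1.ker := by
    intro w hw
    rw [MonoidHom.mem_ker] at hw ⊢
    rw [hk1, hw]
    exact one_mem _
  let f2 : HallG →* FreeGroup (Fin 3) ⧸ M := mark.liftOfSurjective mark_surjective ⟨f1, hkm⟩
  have hf2 : ∀ w, f2 (mark w) = f1 w := fun w =>
    MonoidHom.liftOfRightInverse_comp_apply _ _ _ _ _
  have hf2s : Function.Surjective f2 := by
    intro y
    obtain ⟨w, rfl⟩ := hf1 y
    exact ⟨mark w, hf2 w⟩
  have hk2 : f2.ker = V J := by
    ext x
    obtain ⟨w, rfl⟩ := mark_surjective x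
    rw [MonoidHom.mem_ker, hf2, hk1]
  let e2 : HallG ⧸ V J ≃* FreeGroup (Fin 3) ⧸ M :=
    (QuotientGroup.quotientMulEquivOfEq hk2.symm).trans
      (QuotientGroup.quotientKerEquivOfSurjective f2 hf2s)
  -- the homomorphism `HallG → HallG ⧸ V J` with kernel the image of `M`
  let f3 : FreeGroup (Fin 3) →* HallG ⧸ V J :=
    e2.symm.toMonoidHom.comp (QuotientGroup.mk' M)
  have hf3 : Function.Surjective f3 := e2.symm.surjective.comp (QuotientGroup.mk'_surjective M)
  have hk3 : ∀ w, f3 w = 1 ↔ w ∈ M := by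
    intro w
    show e2.symm (QuotientGroup.mk' M w) = 1 ↔ _
    rw [MulEquiv.map_eq_one_iff]
    exact QuotientGroup.eq_one_iff _
  have hkI : ∀ w, mark w ∈ V I → w ∈ M := fun w hw => hIM.le hw
  have hkm3 : mark.ker ≤ f3.ker := by
    intro w hw
    rw [MonoidHom.mem_ker] at hw ⊢
    rw [hk3]
    apply hkI
    rw [hw]
    exact one_mem _
  let f4 : HallG →* HallG ⧸ V J := mark.liftOfSurjective mark_surjective ⟨f3, hkm3⟩
  have hf4 : ∀ w, f4 (mark w) = f3 w := fun w =>
    MonoidHom.liftOfRightInverse_comp_apply _ _ _ _ _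
  have hf4s : Function.Surjective f4 := by
    intro y
    obtain ⟨w, rfl⟩ := hf3 y
    exact ⟨mark w, hf4 w⟩
  apply rigid I J f4 hf4s
  · intro x hx
    obtain ⟨w, rfl⟩ := mark_surjective x
    rw [MonoidHom.mem_ker, hf4, hk3]
    exact hkI w hx
  · intro h
    obtain ⟨w, hwM, hwI⟩ := SetLike.exists_of_lt hIM
    apply hwI
    show mark w ∈ V I
    rw [← h, MonoidHom.mem_ker, hf4, hk3]
    exact hwM

/-- Indicator function of a subgroup. -/
def ind (N : Subgroup (FreeGroup (Fin 3))) : FreeGroup (Fin 3) → Bool := fun g => decide (g ∈ N)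

lemma ind_eq_true {N : Subgroup (FreeGroup (Fin 3))} {g : FreeGroup (Fin 3)} :
    ind N g = true ↔ g ∈ N := by simp [ind]

lemma ind_inj {N M : Subgroup (FreeGroup (Fin 3))} (h : ind N = ind M) : N = M := by
  ext g
  rw [← ind_eq_true, h, ind_eq_true]

/-- The encoding of a point `x` of Cantor space. -/
def Ix (x : ℕ → Bool) : Set ℕ :=
  {k | ∃ n, k = Encodable.encode (Sum.inl (n, x n) : (ℕ × Bool) ⊕ (ℕ × ℕ))}

/-- The encoding of a point `(x, y)`. -/
def Jxy (x : ℕ → Bool) (y : ℕ → ℕ) : Set ℕ :=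
  Ix x ∪ {k | ∃ n, k = Encodable.encode (Sum.inr (n, y n) : (ℕ × Bool) ⊕ (ℕ × ℕ))}

lemma inl_mem_Ix {x : ℕ → Bool} {n : ℕ} {b : Bool} :
    Encodable.encode (Sum.inl (n, b) : (ℕ × Bool) ⊕ (ℕ × ℕ)) ∈ Ix x ↔ b = x n := by
  constructor
  · rintro ⟨m, hm⟩
    have := Encodable.encode_injective hm
    simp only [Sum.inl.injEq, Prod.mk.injEq] at this
    obtain ⟨rfl, h⟩ := this
    exact h
  · rintro rfl
    exact ⟨n, rfl⟩

lemma inr_not_mem_Ix {x : ℕ → Bool} {p : ℕ × ℕ} :
    Encodable.encode (Sum.inr p : (ℕ × Bool) ⊕ (ℕ × ℕ)) ∉ Ix x := by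
  rintro ⟨m, hm⟩
  have := Encodable.encode_injective hm
  simp at this

lemma inl_mem_Jxy {x : ℕ → Bool} {y : ℕ → ℕ} {n : ℕ} {b : Bool} :
    Encodable.encode (Sum.inl (n, b) : (ℕ × Bool) ⊕ (ℕ × ℕ)) ∈ Jxy x y ↔ b = x n := by
  constructor
  · rintro (h | ⟨m, hm⟩)
    · exact inl_mem_Ix.1 h
    · have := Encodable.encode_injective hm
      simp at this
  · rintro rfl
    exact Or.inl ⟨n, rfl⟩

lemma inr_mem_Jxy {x : ℕ → Bool} {y : ℕ → ℕ} {n m : ℕ} :
    Encodable.encode (Sum.inr (n, m) : (ℕ × Bool) ⊕ (ℕ × ℕ)) ∈ Jxy x y ↔ m = y n := by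
  constructor
  · rintro (h | ⟨k, hk⟩)
    · exact absurd h inr_not_mem_Ix
    · have := Encodable.encode_injective hk
      simp only [Sum.inr.injEq, Prod.mk.injEq] at this
      obtain ⟨rfl, h⟩ := this
      exact h
  · rintro rfl
    exact Or.inr ⟨n, rfl⟩

lemma Ix_subset_Ix {x x' : ℕ → Bool} (h : Ix x ⊆ Ix x') : x = x' := by
  funext n
  exact inl_mem_Ix.1 (h (inl_mem_Ix.2 rfl))

lemma Ix_subset_Jxy {x x' : ℕ → Bool} {y : ℕ → ℕ} (h : Ix x ⊆ Jxy x' y) : x = x' := by
  funext n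
  exact inl_mem_Jxy.1 (h (inl_mem_Ix.2 rfl))

lemma Jxy_inj {x x' : ℕ → Bool} {y y' : ℕ → ℕ} (h : Jxy x y = Jxy x' y') : x = x' ∧ y = y' := by
  constructor
  · funext n
    have : Encodable.encode (Sum.inl (n, x n) : (ℕ × Bool) ⊕ (ℕ × ℕ)) ∈ Jxy x' y' :=
      h ▸ inl_mem_Jxy.2 rfl
    exact inl_mem_Jxy.1 this
  · funext n
    have : Encodable.encode (Sum.inr (n, y n) : (ℕ × Bool) ⊕ (ℕ × ℕ)) ∈ Jxy x' y' :=
      h ▸ inr_mem_Jxy.2 rfl
    exact inr_mem_Jxy.1 this

/-- Measurability of the map to marked groups. -/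
lemma measurable_ind_NJ {X : Type*} [MeasurableSpace X] (J : X → Set ℕ)
    (hJ : ∀ i, MeasurableSet {x | i ∈ J x}) : Measurable fun x => ind (NJ (J x)) := by
  rw [measurable_pi_iff]
  intro g
  have key : MeasurableSet {x | g ∈ NJ (J x)} := by
    by_cases hg : toQ (mark g) = 1
    · have : {x | g ∈ NJ (J x)} = ⋂ i : ℕ,
          ({x | i ∈ J x} ∪ {_x | (pr i : ℤ) ∣ (mark g).h.coeff i}) := by
        ext x
        simp only [Set.mem_iInter, Set.mem_union, Set.mem_ofPred_eq]
        have h1 : g ∈ NJ (J x) ↔ (mark g).h ∈ K (J x) := by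
          show mark g ∈ V (J x) ↔ _
          rw [toQ_eq_one.1 hg, z_mem_V]
          rfl
        rw [h1, mem_K]
        constructor
        · intro h i
          by_cases hi : i ∈ J x
          · exact Or.inl hi
          · exact Or.inr (h i hi)
        · intro h i hi
          rcases h i with h | h
          · exact absurd h hi
          · exact h
      rw [this]
      exact MeasurableSet.iInter fun i => (hJ i).union (MeasurableSet.const _)
    · have : {x | g ∈ NJ (J x)} = ∅ := by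
        ext x
        simp only [Set.mem_ofPred_eq, Set.mem_empty_iff_false, iff_false]
        intro h
        exact hg (V_le_ker_toQ _ (show mark g ∈ V (J x) from h))
      rw [this]
      exact MeasurableSet.empty
  apply measurable_to_bool
  convert! key using 1
  ext x
  simp [ind]

lemma measurable_Ix (i : ℕ) : MeasurableSet {x : ℕ → Bool | i ∈ Ix x} := by
  have : {x : ℕ → Bool | i ∈ Ix x} = ⋃ n : ℕ, {x : ℕ → Bool |
      i = Encodable.encode (Sum.inl (n, x n) : (ℕ × Bool) ⊕ (ℕ × ℕ))} := by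
    ext x
    simp [Ix]
  rw [this]
  refine MeasurableSet.iUnion fun n => ?_
  have h1 : Measurable fun x : ℕ → Bool => x n := measurable_pi_apply n
  exact h1 (MeasurableSet.of_discrete (s := {b : Bool |
    i = Encodable.encode (Sum.inl (n, b) : (ℕ × Bool) ⊕ (ℕ × ℕ))}))

lemma measurable_Jxy (i : ℕ) : MeasurableSet {p : (ℕ → Bool) × (ℕ → ℕ) | i ∈ Jxy p.1 p.2} := by
  have : {p : (ℕ → Bool) × (ℕ → ℕ) | i ∈ Jxy p.1 p.2} =
      Prod.fst ⁻¹' {x : ℕ → Bool | i ∈ Ix x} ∪ ⋃ n : ℕ, {p : (ℕ → Bool) × (ℕ → ℕ) |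
      i = Encodable.encode (Sum.inr (n, p.2 n) : (ℕ × Bool) ⊕ (ℕ × ℕ))} := by
    ext x
    simp [Jxy]
  rw [this]
  refine MeasurableSet.union (measurable_fst (measurable_Ix i)) (MeasurableSet.iUnion fun n => ?_)
  have h1 : Measurable fun p : (ℕ → Bool) × (ℕ → ℕ) => p.2 n :=
    (measurable_pi_apply n).comp measurable_snd
  exact h1 (MeasurableSet.of_discrete (s := {b : ℕ |
    i = Encodable.encode (Sum.inr (n, b) : (ℕ × Bool) ⊕ (ℕ × ℕ))}))

/-- The Borel family of marked groups. -/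
def BB (C : Set ((ℕ → Bool) × (ℕ → ℕ))) : Set (FreeGroup (Fin 3) → Bool) :=
  (Set.range fun x => ind (NJ (Ix x))) ∪ (fun p : (ℕ → Bool) × (ℕ → ℕ) => ind (NJ (Jxy p.1 p.2))) '' C

lemma measurable_BB {C : Set ((ℕ → Bool) × (ℕ → ℕ))} (hC : MeasurableSet C) :
    MeasurableSet (BB C) := by
  apply MeasurableSet.union
  · rw [← Set.image_univ]
    apply MeasurableSet.univ.image_of_measurable_injOn
    · exact measurable_ind_NJ _ measurable_Ix
    · intro x _ x' _ h
      exact Ix_subset_Ix (NJ_inj (ind_inj h)).subset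
  · apply hC.image_of_measurable_injOn
    · exact measurable_ind_NJ (fun p : (ℕ → Bool) × (ℕ → ℕ) => Jxy p.1 p.2) measurable_Jxy
    · intro x _ x' _ h
      obtain ⟨h1, h2⟩ := Jxy_inj (NJ_inj (ind_inj h))
      exact Prod.ext h1 h2

/-- The property, as a set of subgroups of the free group. -/
def SS (C : Set ((ℕ → Bool) × (ℕ → ℕ))) : Set (Subgroup (FreeGroup (Fin 3))) :=
  {N | ¬ ∃ φ : FreeGroup (Fin 3) →* FreeGroup (Fin 3), (∀ g, ∃ u, g⁻¹ * φ u ∈ N) ∧
    ind (N.comap φ) ∈ BB C}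

lemma not_mem_SS_of_iso {C : Set ((ℕ → Bool) × (ℕ → ℕ))}
    {N M : Subgroup (FreeGroup (Fin 3))} [N.Normal] [M.Normal]
    (e : (FreeGroup (Fin 3) ⧸ N) ≃* (FreeGroup (Fin 3) ⧸ M)) (h : N ∉ SS C) : M ∉ SS C := by
  simp only [SS, Set.mem_ofPred_eq, not_not] at h ⊢
  obtain ⟨φ, hφ, hB⟩ := h
  let φ' : FreeGroup (Fin 3) →* FreeGroup (Fin 3) :=
    FreeGroup.lift fun i => (e (QuotientGroup.mk (φ (FreeGroup.of i)))).out
  have key : ∀ w, (QuotientGroup.mk (φ' w) : FreeGroup (Fin 3) ⧸ M) = e (QuotientGroup.mk (φ w)) := by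
    have : (QuotientGroup.mk' M).comp φ' =
        (e.toMonoidHom.comp (QuotientGroup.mk' N)).comp φ := by
      ext i
      simp [φ']
    intro w
    exact DFunLike.congr_fun this w
  refine ⟨φ', ?_, ?_⟩
  · intro g
    obtain ⟨g', hg'⟩ := QuotientGroup.mk_surjective (e.symm (QuotientGroup.mk g))
    obtain ⟨u, hu⟩ := hφ g'
    refine ⟨u, ?_⟩
    rw [← QuotientGroup.eq] at hu ⊢
    rw [key, ← hu, hg', MulEquiv.apply_symm_apply]
  · have : M.comap φ' = N.comap φ := by
      ext w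
      rw [Subgroup.mem_comap, Subgroup.mem_comap, ← QuotientGroup.eq_one_iff, key,
        MulEquiv.map_eq_one_iff, QuotientGroup.eq_one_iff]
    rw [this]
    exact hB

lemma ind_comap (N : Subgroup (FreeGroup (Fin 3))) (φ : FreeGroup (Fin 3) →* FreeGroup (Fin 3)) :
    ind (N.comap φ) = ind N ∘ φ := by
  funext g
  simp [ind]

/-- Indicator functions of normal subgroups. -/
def NormSet : Set (FreeGroup (Fin 3) → Bool) :=
  {f | f 1 = true} ∩ {f | ∀ a b, f a = true → f b = true → f (a * b) = true} ∩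
    {f | ∀ a, f a = true → f a⁻¹ = true} ∩ {f | ∀ a g, f a = true → f (g * a * g⁻¹) = true}

lemma measurable_eval (g : FreeGroup (Fin 3)) :
    MeasurableSet {f : FreeGroup (Fin 3) → Bool | f g = true} := by
  have h : Measurable fun f : FreeGroup (Fin 3) → Bool => f g := measurable_pi_apply g
  exact h (measurableSet_singleton true)

lemma measurable_NormSet : MeasurableSet NormSet := by
  refine MeasurableSet.inter (MeasurableSet.inter (MeasurableSet.inter (measurable_eval 1) ?_) ?_) ?_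
  · have : {f : FreeGroup (Fin 3) → Bool | ∀ a b, f a = true → f b = true → f (a * b) = true} =
      ⋂ a, ⋂ b, ({f | f a = true}ᶜ ∪ ({f | f b = true}ᶜ ∪ {f | f (a * b) = true})) := by
      ext f
      simp only [Set.mem_ofPred_eq, Set.mem_iInter, Set.mem_union, Set.mem_compl_iff]
      refine forall_congr' fun a => forall_congr' fun b => ?_
      tauto
    rw [this]
    exact MeasurableSet.iInter fun a => MeasurableSet.iInter fun b =>
      (measurable_eval a).compl.union ((measurable_eval b).compl.union (measurable_eval _))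
  · have : {f : FreeGroup (Fin 3) → Bool | ∀ a, f a = true → f a⁻¹ = true} =
      ⋂ a, ({f | f a = true}ᶜ ∪ {f | f a⁻¹ = true}) := by
      ext f
      simp only [Set.mem_ofPred_eq, Set.mem_iInter, Set.mem_union, Set.mem_compl_iff]
      refine forall_congr' fun a => ?_
      tauto
    rw [this]
    exact MeasurableSet.iInter fun a => (measurable_eval a).compl.union (measurable_eval _)
  · have : {f : FreeGroup (Fin 3) → Bool | ∀ a g, f a = true → f (g * a * g⁻¹) = true} =
      ⋂ a, ⋂ g, ({f | f a = true}ᶜ ∪ {f | f (g * a * g⁻¹) = true}) := by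
      ext f
      simp only [Set.mem_ofPred_eq, Set.mem_iInter, Set.mem_union, Set.mem_compl_iff]
      refine forall_congr' fun a => forall_congr' fun b => ?_
      tauto
    rw [this]
    exact MeasurableSet.iInter fun a => MeasurableSet.iInter fun b =>
      (measurable_eval a).compl.union (measurable_eval _)

/-- The set of indicator functions in the complement of the property. -/
def QSet (C : Set ((ℕ → Bool) × (ℕ → ℕ))) : Set (FreeGroup (Fin 3) → Bool) :=
  {f | ∃ φ : FreeGroup (Fin 3) →* FreeGroup (Fin 3), (∀ g, ∃ u, f (g⁻¹ * φ u) = true) ∧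
    f ∘ φ ∈ BB C}

lemma measurable_QSet {C : Set ((ℕ → Bool) × (ℕ → ℕ))} (hC : MeasurableSet C) :
    MeasurableSet (QSet C) := by
  have hcount : Countable (FreeGroup (Fin 3) →* FreeGroup (Fin 3)) :=
    Function.Injective.countable (f := fun φ : FreeGroup (Fin 3) →* FreeGroup (Fin 3) =>
      fun i : Fin 3 => φ (FreeGroup.of i)) (by
        intro φ ψ h
        ext i
        exact congrFun h i)
  have : QSet C = ⋃ φ : FreeGroup (Fin 3) →* FreeGroup (Fin 3),
      ((⋂ g, ⋃ u, {f | f (g⁻¹ * φ u) = true}) ∩ (fun f => f ∘ φ) ⁻¹' BB C) := by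
    ext f
    simp [QSet]
  rw [this]
  refine MeasurableSet.iUnion fun φ => MeasurableSet.inter ?_ ?_
  · exact MeasurableSet.iInter fun g => MeasurableSet.iUnion fun u => measurable_eval _
  · have hm : Measurable fun f : FreeGroup (Fin 3) → Bool => f ∘ φ := by
      rw [measurable_pi_iff]
      intro g
      exact measurable_pi_apply (φ g)
    exact hm (measurable_BB hC)

lemma mem_SS_iff {C : Set ((ℕ → Bool) × (ℕ → ℕ))} {N : Subgroup (FreeGroup (Fin 3))} :
    N ∈ SS C ↔ ind N ∉ QSet C := by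
  simp only [SS, QSet, Set.mem_ofPred_eq, ind_comap, ind_eq_true]

lemma not_mem_SS {C : Set ((ℕ → Bool) × (ℕ → ℕ))} {N : Subgroup (FreeGroup (Fin 3))}
    (h : ind N ∈ BB C) : N ∉ SS C := by
  simp only [SS, Set.mem_ofPred_eq, not_not]
  refine ⟨MonoidHom.id _, fun g => ⟨g, by simp⟩, ?_⟩
  have : N.comap (MonoidHom.id _) = N := Subgroup.comap_id N
  rw [this]; exact h

theorem main :
    ∃ n : ℕ, ∃ S : Set (Subgroup (FreeGroup (Fin n))),
      (∀ (N M : Subgroup (FreeGroup (Fin n))) [N.Normal] [M.Normal],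
          Nonempty ((FreeGroup (Fin n) ⧸ N) ≃* (FreeGroup (Fin n) ⧸ M)) → (N ∈ S ↔ M ∈ S)) ∧
      @MeasurableSet (FreeGroup (Fin n) → Bool) (borel (FreeGroup (Fin n) → Bool))
        {f : FreeGroup (Fin n) → Bool | ∃ N : Subgroup (FreeGroup (Fin n)),
          N.Normal ∧ N ∈ S ∧ ∀ g, f g = true ↔ g ∈ N} ∧
      (¬ @MeasurableSet (FreeGroup (Fin n) → Bool) (borel (FreeGroup (Fin n) → Bool))
          {f : FreeGroup (Fin n) → Bool | ∃ N : Subgroup (FreeGroup (Fin n)),
            N.Normal ∧ N ∉ S ∧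
            (∀ M : Subgroup (FreeGroup (Fin n)), M.Normal → N < M → M ∈ S) ∧
            ∀ g, f g = true ↔ g ∈ N} ∨
       ¬ @MeasurableSet (FreeGroup (Fin n) → Bool) (borel (FreeGroup (Fin n) → Bool))
          {f : FreeGroup (Fin n) → Bool | ∃ N : Subgroup (FreeGroup (Fin n)),
            N.Normal ∧
            (∀ g : FreeGroup (Fin n), g ∉ N →
              ∃ M : Subgroup (FreeGroup (Fin n)), M.Normal ∧ N ≤ M ∧ g ∉ M ∧ M ∈ S) ∧
            ∀ g, f g = true ↔ g ∈ N}) := by
  obtain ⟨C, hC, hCn⟩ := exists_measurable_nonmeasurable_proj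
  refine ⟨3, SS C, ?_, ?_, Or.inl ?_⟩
  · rintro N M _ _ ⟨e⟩
    constructor
    · intro h
      by_contra h'
      exact not_mem_SS_of_iso e.symm h' h
    · intro h
      by_contra h'
      exact not_mem_SS_of_iso e h' h
  · rw [← BorelSpace.measurable_eq (α := FreeGroup (Fin 3) → Bool)]
    have : {f : FreeGroup (Fin 3) → Bool | ∃ N : Subgroup (FreeGroup (Fin 3)),
          N.Normal ∧ N ∈ SS C ∧ ∀ g, f g = true ↔ g ∈ N} = NormSet ∩ (QSet C)ᶜ := by
      ext f
      constructor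
      · rintro ⟨N, hN, hNS, hf⟩
        have hfi : f = ind N := by
          funext g
          rw [Bool.eq_iff_iff, hf, ind_eq_true]
        refine ⟨⟨⟨⟨?_, ?_⟩, ?_⟩, ?_⟩, ?_⟩
        · exact (hf 1).2 N.one_mem
        · intro a b ha hb
          exact (hf _).2 (N.mul_mem ((hf a).1 ha) ((hf b).1 hb))
        · intro a ha
          exact (hf _).2 (N.inv_mem ((hf a).1 ha))
        · intro a g ha
          exact (hf _).2 (hN.conj_mem _ ((hf a).1 ha) g)
        · rw [hfi]
          exact mem_SS_iff.1 hNS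
      · rintro ⟨⟨⟨⟨h1, h2⟩, h3⟩, h4⟩, h5⟩
        let N : Subgroup (FreeGroup (Fin 3)) :=
          { carrier := {g | f g = true}
            one_mem' := h1
            mul_mem' := fun {a b} ha hb => h2 a b ha hb
            inv_mem' := fun {a} ha => h3 a ha }
        have hf : ∀ g, f g = true ↔ g ∈ N := fun g => Iff.rfl
        have hfi : f = ind N := by
          funext g
          rw [Bool.eq_iff_iff, hf, ind_eq_true]
        refine ⟨N, ⟨fun a ha g => h4 a g ha⟩, ?_, hf⟩
        rw [mem_SS_iff, ← hfi]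
        exact h5
    rw [this]
    exact measurable_NormSet.inter (measurable_QSet hC).compl
  · rw [← BorelSpace.measurable_eq (α := FreeGroup (Fin 3) → Bool)]
    intro hmeas
    apply hCn
    have h1 : Measurable fun x : ℕ → Bool => ind (NJ (Ix x)) :=
      measurable_ind_NJ _ measurable_Ix
    have h2 := (h1 hmeas).compl
    convert! h2 using 1
    ext x
    simp only [Set.mem_compl_iff, Set.mem_preimage, Set.mem_ofPred_eq]
    rw [← not_iff_not, not_not]
    constructor
    · intro hx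
      refine ⟨NJ (Ix x), inferInstance, not_mem_SS (Or.inl ⟨x, rfl⟩), ?_, fun g => ind_eq_true⟩
      intro M hM hlt
      by_contra hMS
      simp only [SS, Set.mem_ofPred_eq, not_not] at hMS
      obtain ⟨φ, hφ, hB⟩ := hMS
      rcases hB with ⟨x', hx'⟩ | ⟨⟨x', y'⟩, hxy', hx'⟩
      · obtain ⟨ha, hb⟩ := rigid_free _ _ M hM hlt φ hφ (ind_inj hx').symm
        exact hb (congrArg Ix (Ix_subset_Ix ha))
      · obtain ⟨ha, hb⟩ := rigid_free _ _ M hM hlt φ hφ (ind_inj hx').symm
        have := Ix_subset_Jxy ha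
        subst this
        exact hx ⟨y', hxy'⟩
    · rintro ⟨N, hN, hNS, hmax, hf⟩ ⟨y, hy⟩
      have hNeq : N = NJ (Ix x) := by
        ext g
        rw [← hf, ind_eq_true]
      subst hNeq
      have hlt : NJ (Ix x) < NJ (Jxy x y) := by
        refine lt_of_le_of_ne (NJ_le_iff.2 Set.subset_union_left) ?_
        intro h
        have h2 := NJ_inj h
        have h3 : Encodable.encode (Sum.inr (0, y 0) : (ℕ × Bool) ⊕ (ℕ × ℕ)) ∈ Ix x :=
          h2 ▸ inr_mem_Jxy.2 rfl
        exact inr_not_mem_Ix h3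
      exact not_mem_SS (Or.inr ⟨(x, y), hy, rfl⟩) (hmax _ inferInstance hlt)

end Pool.Agent.S14935Aux
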